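import Pool.Agent.H14R2.LL.Defs

namespace LL14
open RC14 RC852 TE852 Finset Equiv Filter

/-- main theorem: `C (log log n)²` random elements of `A_n` have gap at least `(log n)^{-C}` -/
theorem MAINH : ∃ C : ℝ, 0 < C ∧ ∀ᶠ n : ℕ in atTop, ∀ k : ℕ,
    C * (Real.log (Real.log n)) ^ 2 ≤ k →
    (Nat.card {x : Fin k → Alt n // ¬ Expanding ((Real.log n) ^ (-C)) x} : ℝ) ≤
      2 / Real.sqrt n * (Fintype.card (Alt n) : ℝ) ^ k := by
  sorry

end LL14
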